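import Mathlib

/-!
# MP_dfaa7a_lc, Q1: game identities over determined games

The identities between game expressions valid over all determined models are exactly those valid
over all models.
-/

set_option autoImplicit false

namespace Pool.Agent.Results.MP_dfaa7a_lc.DeterminedIdentities

universe u v

/-- Game expressions over the game variables `V`. -/
inductive Game (V : Type u) : Type u
  | var : V → Game V
  | idle : Game V
  | cup : Game V → Game V → Game V
  | seq : Game V → Game V → Game V
  | dual : Game V → Game V

/-- `x ∩ y`, an abbreviation. -/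
def Game.cap {V : Type u} (G H : Game V) : Game V := (G.dual.cup H.dual).dual

/-- A model: for each game variable, monotone forcing relations `E` and `A` of the two players on
the set `S` of states, which are consistent. -/
structure Model (V : Type u) (S : Type v) where
  /-- forcing relation of player E -/
  E : V → S → Set S → Prop
  /-- forcing relation of player A -/
  A : V → S → Set S → Prop
  monoE : ∀ g s X Y, X ⊆ Y → E g s X → E g s Y
  monoA : ∀ g s X Y, X ⊆ Y → A g s X → A g s Y
  cons : ∀ g s Y Z, E g s Y → A g s Z → (Y ∩ Z).Nonempty

/-- A model is determined if `A` forces `Y` exactly if `E` does not force the complement. -/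
def Model.Determined {V : Type u} {S : Type v} (M : Model V S) : Prop :=
  ∀ g s Y, M.A g s Y ↔ ¬ M.E g s Yᶜ

/-- The two forcing relations of an expression: `force M true` is the one of player E and
`force M false` is the one of player A. -/
def force {V : Type u} {S : Type v} (M : Model V S) : Game V → Bool → S → Set S → Prop
  | .var g, true => M.E g
  | .var g, false => M.A g
  | .idle, _ => fun s Y => s ∈ Y
  | .cup G H, true => fun s Y => force M G true s Y ∨ force M H true s Y
  | .cup G H, false => fun s Y => force M G false s Y ∧ force M H false s Y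
  | .dual G, b => force M G (!b)
  | .seq G H, b => fun s Y => ∃ Z : Set S, force M G b s Z ∧ ∀ z ∈ Z, force M H b z Y

/-- The identity `G = H` holds in the model `M`. -/
def Holds {V : Type u} {S : Type v} (M : Model V S) (G H : Game V) : Prop :=
  (∀ s Y, force M G true s Y ↔ force M H true s Y) ∧
    (∀ s Y, force M G false s Y ↔ force M H false s Y)

/-- The identity `G = H` is valid over all models. -/
def Valid {V : Type u} (G H : Game V) : Prop :=
  ∀ (S : Type v) (M : Model V S), Holds M G H

/-- The identity `G = H` is valid over all determined models. -/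
def ValidDet {V : Type u} (G H : Game V) : Prop :=
  ∀ (S : Type v) (M : Model V S), M.Determined → Holds M G H

section

variable {V : Type u} {S : Type v} (M : Model V S)

theorem force_mono (G : Game V) : ∀ (b : Bool) (s : S) (X Y : Set S), X ⊆ Y →
    force M G b s X → force M G b s Y := by
  induction G with
  | var g =>
    intro b s X Y h
    cases b
    · exact M.monoA g s X Y h
    · exact M.monoE g s X Y h
  | idle => exact fun b s X Y h hx => h hx
  | cup G H ihG ihH =>
    intro b s X Y h
    cases b
    · exact fun hx => ⟨ihG _ _ _ _ h hx.1, ihH _ _ _ _ h hx.2⟩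
    · exact fun hx => hx.imp (ihG _ _ _ _ h) (ihH _ _ _ _ h)
  | dual G ih => exact fun b => ih (!b)
  | seq G H ihG ihH =>
    intro b s X Y h
    rintro ⟨Z, h1, h2⟩
    exact ⟨Z, h1, fun z hz => ihH _ _ _ _ h (h2 z hz)⟩

/-- The states of the determined model: two idle states `none, true` and `none, false` are
added. -/
abbrev St (S : Type v) := S ⊕ Bool

/-- The part in `S` of a set of states. -/
def low (W : Set (St S)) : Set S := {s | Sum.inl s ∈ W}

theorem low_compl (W : Set (St S)) : low Wᶜ = (low W)ᶜ := rfl

/-- Forcing relation of player E in the determined model. -/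
def detE (g : V) : St S → Set (St S) → Prop
  | .inr b, W => Sum.inr b ∈ W
  | .inl s, W =>
      (Sum.inr true ∈ W ∧ Sum.inr false ∈ W) ∨
      (Sum.inr true ∈ W ∧ M.E g s (low W)) ∨
      (Sum.inr false ∈ W ∧ ¬ M.A g s (low W)ᶜ)

/-- The determined model. -/
def det : Model V (St S) where
  E := detE M
  A := fun g s W => ¬ detE M g s Wᶜ
  monoE := by
    intro g s X Y h
    have hl : low X ⊆ low Y := fun x hx => h hx
    rcases s with s | b
    · rintro (⟨h1, h2⟩ | ⟨h1, h2⟩ | ⟨h1, h2⟩)
      · exact Or.inl ⟨h h1, h h2⟩
      · exact Or.inr (Or.inl ⟨h h1, M.monoE _ _ _ _ hl h2⟩)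
      · exact Or.inr (Or.inr ⟨h h1, fun h3 =>
          h2 (M.monoA _ _ _ _ (Set.compl_subset_compl.2 hl) h3)⟩)
    · exact fun h1 => h h1
  monoA := by
    intro g s X Y h h1 h2
    apply h1
    have hc : Yᶜ ⊆ Xᶜ := Set.compl_subset_compl.2 h
    have hl : low Yᶜ ⊆ low Xᶜ := fun x hx => hc hx
    rcases s with s | b
    · rcases h2 with ⟨h2, h3⟩ | ⟨h2, h3⟩ | ⟨h2, h3⟩
      · exact Or.inl ⟨hc h2, hc h3⟩
      · exact Or.inr (Or.inl ⟨hc h2, M.monoE _ _ _ _ hl h3⟩)
      · exact Or.inr (Or.inr ⟨hc h2, fun h4 =>
          h3 (M.monoA _ _ _ _ (Set.compl_subset_compl.2 hl) h4)⟩)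
    · exact hc h2
  cons := by
    intro g s Y Z h1 h2
    by_contra hne
    apply h2
    have hc : Y ⊆ Zᶜ := by
      intro y hy hz
      exact hne ⟨y, hy, hz⟩
    have hl : low Y ⊆ low Zᶜ := fun x hx => hc hx
    rcases s with s | b
    · rcases h1 with ⟨h1, h3⟩ | ⟨h1, h3⟩ | ⟨h1, h3⟩
      · exact Or.inl ⟨hc h1, hc h3⟩
      · exact Or.inr (Or.inl ⟨hc h1, M.monoE _ _ _ _ hl h3⟩)
      · exact Or.inr (Or.inr ⟨hc h1, fun h4 =>
          h3 (M.monoA _ _ _ _ (Set.compl_subset_compl.2 hl) h4)⟩)
    · exact hc h1

theorem det_determined : (det M).Determined := fun _ _ _ => Iff.rfl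

/-- A set of states containing exactly one of the two idle states, `true`. -/
def Good (W : Set (St S)) : Prop := Sum.inr true ∈ W ∧ Sum.inr false ∉ W

theorem force_idle (G : Game V) : ∀ (b : Bool) (c : Bool) (W : Set (St S)), Good W →
    (force (det M) G b (Sum.inr c) W ↔ c = true) := by
  induction G with
  | var g =>
    intro b c W hW
    cases b
    · change ¬ detE M g (Sum.inr c) Wᶜ ↔ _
      cases c
      · simp only [detE, Set.mem_compl_iff, not_not, Bool.false_eq_true, iff_false]
        exact hW.2
      · simp only [detE, Set.mem_compl_iff, not_not, iff_true]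
        exact hW.1
    · change detE M g (Sum.inr c) W ↔ _
      cases c
      · simp only [detE, Bool.false_eq_true, iff_false]
        exact hW.2
      · simp only [detE, iff_true]
        exact hW.1
  | idle =>
    intro b c W hW
    cases c
    · simp only [force, Bool.false_eq_true, iff_false]
      exact hW.2
    · simp only [force, iff_true]
      exact hW.1
  | cup G H ihG ihH =>
    intro b c W hW
    cases b
    · simp only [force, ihG false c W hW, ihH false c W hW, and_self]
    · simp only [force, ihG true c W hW, ihH true c W hW, or_self]
  | dual G ih => exact fun b => ih (!b)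
  | seq G H ihG ihH =>
    intro b c W hW
    -- the largest usable intermediate set is good
    have hgood : Good {z | force (det M) H b z W} := by
      constructor
      · exact (ihH b true W hW).2 rfl
      · intro h
        exact absurd ((ihH b false W hW).1 h) (by simp)
    have hiff : force (det M) (.seq G H) b (Sum.inr c) W ↔
        force (det M) G b (Sum.inr c) {z | force (det M) H b z W} := by
      constructor
      · rintro ⟨Z, h1, h2⟩
        exact force_mono _ G b _ _ _ h2 h1
      · intro h
        exact ⟨_, h, fun z hz => hz⟩
    rw [hiff]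
    exact ihG b c _ hgood

theorem force_low (G : Game V) : ∀ (b : Bool) (s : S) (W : Set (St S)), Good W →
    (force (det M) G b (Sum.inl s) W ↔ force M G b s (low W)) := by
  induction G with
  | var g =>
    intro b s W hW
    cases b
    · change ¬ detE M g (Sum.inl s) Wᶜ ↔ M.A g s (low W)
      simp only [detE, Set.mem_compl_iff, low_compl, compl_compl, hW.1, hW.2, not_true,
        false_and, not_false_eq_true, true_and, false_or, not_not]
    · change detE M g (Sum.inl s) W ↔ M.E g s (low W)
      simp only [detE, hW.1, hW.2, true_and, false_and, or_false, false_or, and_false]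
  | idle => exact fun b s W hW => Iff.rfl
  | cup G H ihG ihH =>
    intro b s W hW
    cases b
    · simp only [force, ihG false s W hW, ihH false s W hW]
    · simp only [force, ihG true s W hW, ihH true s W hW]
  | dual G ih => exact fun b => ih (!b)
  | seq G H ihG ihH =>
    intro b s W hW
    have hgood : Good {z | force (det M) H b z W} := by
      constructor
      · exact (force_idle M H b true W hW).2 rfl
      · intro h
        exact absurd ((force_idle M H b false W hW).1 h) (by simp)
    have hiff : force (det M) (.seq G H) b (Sum.inl s) W ↔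
        force (det M) G b (Sum.inl s) {z | force (det M) H b z W} := by
      constructor
      · rintro ⟨Z, h1, h2⟩
        exact force_mono _ G b _ _ _ h2 h1
      · intro h
        exact ⟨_, h, fun z hz => hz⟩
    have hiff2 : force M (.seq G H) b s (low W) ↔
        force M G b s {z | force M H b z (low W)} := by
      constructor
      · rintro ⟨Z, h1, h2⟩
        exact force_mono _ G b _ _ _ h2 h1
      · intro h
        exact ⟨_, h, fun z hz => hz⟩
    rw [hiff, hiff2, ihG b s _ hgood]
    have : low {z | force (det M) H b z W} = {z | force M H b z (low W)} := by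
      ext z
      exact ihH b z W hW
    rw [this]

end

/-- The identities between game expressions valid over all determined models are exactly those
valid over all models. Moreover, every model `M` has a determined model, on its states together
with two new ones, in which no identity holds that fails in `M`. -/
theorem result :
    (∀ (V : Type u) (G H : Game V), ValidDet.{u, v} G H ↔ Valid.{u, v} G H) ∧
    (∀ (V : Type u) (S : Type v) (M : Model V S), ∃ M' : Model V (S ⊕ Bool), M'.Determined ∧
      ∀ G H : Game V, Holds M' G H → Holds M G H) := by
  have key : ∀ (V : Type u) (S : Type v) (M : Model V S), ∃ M' : Model V (S ⊕ Bool), M'.Determined ∧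
      ∀ G H : Game V, Holds M' G H → Holds M G H := by
    intro V S M
    refine ⟨det M, det_determined M, fun G H h => ?_⟩
    have hW : ∀ Y : Set S, Good ((Sum.inl '' Y ∪ {Sum.inr true} : Set (St S))) ∧
        low ((Sum.inl '' Y ∪ {Sum.inr true} : Set (St S))) = Y := by
      intro Y
      refine ⟨⟨by simp, by simp⟩, ?_⟩
      ext s
      simp [low]
    constructor
    · intro s Y
      have h1 := h.1 (Sum.inl s) (Sum.inl '' Y ∪ {Sum.inr true})
      rwa [force_low M G true s _ (hW Y).1, force_low M H true s _ (hW Y).1, (hW Y).2] at h1
    · intro s Y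
      have h1 := h.2 (Sum.inl s) (Sum.inl '' Y ∪ {Sum.inr true})
      rwa [force_low M G false s _ (hW Y).1, force_low M H false s _ (hW Y).1, (hW Y).2] at h1
  refine ⟨fun V G H => ⟨fun h S M => ?_, fun h S M _ => h S M⟩, key⟩
  obtain ⟨M', h1, h2⟩ := key V S M
  exact h2 G H (h _ M' h1)

end Pool.Agent.Results.MP_dfaa7a_lc.DeterminedIdentities
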